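import Pool.Agent.W498.Stein.Main

/-!
# MP_a77660_ag, Q1: the Stein degree is unbounded in positive characteristic

The negated form of Q1 holds with `d = 2` and every `0 < t ≤ 1`, over fields `k` of characteristic
two and with `Y = Spec k`: for every `N` there is a log Calabi-Yau pair `(X, B)` of dimension two
over a field `k = H⁰(X, O_X)` of characteristic two, and a prime divisor `S` on `X` of coefficient
one in `B`, with `dim_k H⁰(S, O_S) ≥ N`.

Here `X` is a regular surface with `-K_X` ample: the quotient of the projective plane over a field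
`ℓ`, `ℓ² ⊂ k ⊂ ℓ`, by a foliation (the surface of `Pool.Agent.H187R3`), and `S = B` is an
effective anticanonical divisor, a curve `Y_0 = 0`.
-/

open AlgebraicGeometry Order Pool.Agent.W498.Stein

namespace Pool.Agent.Results.MP_a77660_ag.SteinUnbounded

theorem result (N : ℕ) : ∃ (X : Scheme.{0}) (_ : IsIntegral X) (_ : IsLocallyNoetherian X)
    (B : X → ℚ), IsLogCalabiYauPair 2 X B ∧ CharP Γ(X, ⊤) 2 ∧
      ∃ (S : Scheme.{0}) (i : S ⟶ X) (_ : IsIntegral S) (_ : IsClosedImmersion i),
        coheight (i (genericPoint S)) = 1 ∧ B (i (genericPoint S)) = 1 ∧ N ≤ steinDegree i :=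
  main N

end Pool.Agent.Results.MP_a77660_ag.SteinUnbounded
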